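import Pool.Agent.Helper40.Ct.Goals

/-!
The only path that counts.
-/

set_option autoImplicit false

open Finset

namespace Pool.Agent.Helper32.Ct

open Pool.Agent.Helper40.Ct

open Classical in
theorem ncard_count {α β : Type} (l : List (α × β)) (x : α) :
    {s : Fin l.length | (l.get s).1 = x}.ncard =
      (l.map fun q => if q.1 = x then 1 else 0).sum := by
  rw [Set.ncard_eq_toFinset_card', Set.toFinset_ofPred, Finset.card_filter]
  exact Fin.sum_univ_fun_getElem l (fun q => if q.1 = x then 1 else 0)

open Classical in
theorem cnt_append {α β : Type} (l l' : List (α × β)) (x : α) :
    {s : Fin (l ++ l').length | ((l ++ l').get s).1 = x}.ncard =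
      {s : Fin l.length | (l.get s).1 = x}.ncard + {s : Fin l'.length | (l'.get s).1 = x}.ncard := by
  rw [ncard_count, ncard_count, ncard_count, List.map_append, List.sum_append]

theorem cnt_map_self {α β : Type} (E : List β) (x : α) :
    {s : Fin (E.map fun e => (x, e)).length | ((E.map fun e => (x, e)).get s).1 = x}.ncard =
      E.length := by
  classical
  rw [ncard_count, List.map_map]
  have : ((fun q : α × β => if q.1 = x then 1 else 0) ∘ fun e => (x, e)) = fun _ => 1 := by
    funext e
    simp
  rw [this]
  simp

theorem cnt_zero {α β : Type} (l : List (α × β)) (x : α) (h : ∀ q ∈ l, q.1 ≠ x) :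
    {s : Fin l.length | (l.get s).1 = x}.ncard = 0 := by
  classical
  rw [ncard_count]
  apply List.sum_eq_zero
  intro a ha
  rw [List.mem_map] at ha
  obtain ⟨q, hq, rfl⟩ := ha
  rw [if_neg (h q hq)]

theorem ev1 (hS : SYM) (hP : PATHS) : EV1 := by
  intro α β r E X
  induction X generalizing E with
  | nil => intro h; exact absurd rfl h
  | cons x xs ih =>
    intro _ hnd hlen
    cases xs with
    | nil =>
      refine ⟨1, Or.inl rfl, fun g _ => ?_⟩
      have hE : E ≠ [] := by
        intro h
        rw [h] at hlen
        simp at hlen
      have hl : E.length = r + 1 := by simpa using hlen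
      rw [(hS α β E g x x []).1, if_neg hE, one_mul]
      congr 1
      show E.map (fun e => (x, e)) = (E.take (r + 1)).map (fun e => (x, e)) ++ []
      rw [List.append_nil, List.take_of_length_le hl.le]
    | cons x' xs =>
      have hx : x ∉ x' :: xs := (List.nodup_cons.1 hnd).1
      have hnd' : (x' :: xs).Nodup := (List.nodup_cons.1 hnd).2
      have hlen2 : E.length = (xs.length + 1) * r + 1 + r := by
        rw [hlen]
        simp only [List.length_cons]
        ring
      have hlen' : (E.drop r).length = (x' :: xs).length * r + 1 := by
        rw [List.length_drop, hlen2]
        simp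
      obtain ⟨ε, hε, hg⟩ := ih (E.drop r) (by simp) hnd' hlen'
      refine ⟨(-1) ^ (r * (xs.length + 1)) * ε, ?_, ?_⟩
      · rcases neg_one_pow_eq_or ℤ (r * (xs.length + 1)) with h | h <;>
          rcases hε with h' | h' <;> rw [h, h'] <;> simp
      · intro g hgl
        rw [(hS α β E g x x' xs).2]
        have hr : r ∈ range E.length := by
          rw [Finset.mem_range, hlen2]
          have : 0 ≤ (xs.length + 1) * r := Nat.zero_le _
          omega
        rw [Finset.sum_eq_single_of_mem r hr]
        · rw [mul_assoc]
          congr 1
          rw [hg]
          · rfl
          · intro l hl hne y hy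
            have h1 := hgl _ (by
              intro q hq
              rcases List.mem_append.1 hq with h | h
              · obtain ⟨e, _, rfl⟩ := List.mem_map.1 h
                simp
              · exact List.mem_cons_of_mem _ (hl q h)) hne y (List.mem_cons_of_mem _ hy)
            rw [cnt_append, cnt_zero, zero_add] at h1
            · exact h1
            · intro q hq
              obtain ⟨e, _, rfl⟩ := List.mem_map.1 hq
              intro h
              exact hx (by rw [show x = y from h]; exact hy)
        · intro i hi hne
          rw [Finset.mem_range] at hi
          have h0 := hP α β 0 (E.drop i) (x' :: xs)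
            (fun l => g ((E.take (i + 1)).map (fun e => (x, e)) ++ l)) (by
              intro l hl _ _
              rw [zero_dvd_iff]
              by_contra hne'
              have h1 := hgl _ (by
                intro q hq
                rcases List.mem_append.1 hq with h | h
                · obtain ⟨e, _, rfl⟩ := List.mem_map.1 h
                  simp
                · exact List.mem_cons_of_mem _ (hl q h).1) hne' x (by simp)
              rw [cnt_append, cnt_map_self, cnt_zero, add_zero, List.length_take] at h1
              · rw [min_eq_left (by omega)] at h1
                exact hne (by omega)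
              · intro q hq h
                exact hx (by rw [← h]; exact (hl q hq).1))
          rw [zero_dvd_iff] at h0
          rw [h0, mul_zero]

end Pool.Agent.Helper32.Ct
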